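import Pool.Agent.Run7.h913.CD.ZET

/-! # Project CD: piece SETUP -/

set_option autoImplicit false

namespace Pool.Agent.Run7.h913.CD

open Set Filter Topology Pool.Agent.Run7.h71.CD
open scoped ContDiff

theorem mobius_alg (c e s : ℝ) (n1 : 1 + e * s ≠ 0) (n2 : 1 + (c + e) * s ≠ 0)
    (n3 : 1 + (c + 2 * e) * s ≠ 0) :
    -(1 * s / (1 + e * s) / (1 + c * (1 * s / (1 + e * s)))) =
    1 * (-s / (1 + (c + 2 * e) * s)) / (1 + e * (-s / (1 + (c + 2 * e) * s))) := by
  have n4 : 1 + c * (1 * s / (1 + e * s)) = (1 + (c + e) * s) / (1 + e * s) := by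
    rw [eq_div_iff n1, add_mul, mul_assoc, div_mul_cancel₀ _ n1]
    ring
  have n5 : 1 + e * (-s / (1 + (c + 2 * e) * s)) = (1 + (c + e) * s) / (1 + (c + 2 * e) * s) := by
    rw [eq_div_iff n3, add_mul, mul_assoc, div_mul_cancel₀ _ n3]
    ring
  rw [n4, n5, div_div_div_cancel_right₀ n1, one_mul, one_mul, div_div_div_cancel_right₀ n3,
    neg_div]

/-- **Piece SETUP.** -/
theorem SETUP : S_SETUP := by
  intro lf tk zet evn U F S hL hS hproj
  obtain ⟨hc, hs, -, -, -, -, -⟩ := lf U F hL.isOpen hL.smooth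
  obtain ⟨ζ, hζ, hh, h2, h1, h3⟩ := zet U F hL
  -- over the points of `S` all odd derivatives vanish
  have hodd : ∀ X ∈ cone U, (X 0 / X 2, X 1 / X 2) ∈ S → ∀ k : ℕ, Odd k →
      iteratedDeriv k (fun s : ℝ => lft F (X + s • ζ X)) 0 = 0 := by
    intro X hX hxS
    obtain ⟨hX2, hxU⟩ := hX
    have hX : X ∈ cone U := ⟨hX2, hxU⟩
    obtain ⟨o1, z1, c1, e1⟩ := line U F hc hs X hX (ζ X)
    set x : ℝ × ℝ := (X 0 / X 2, X 1 / X 2) with hx
    set e : ℝ := ζ X 2 / X 2 with he
    set v : ℝ × ℝ := (ζ X 0 / X 2 - X 0 / X 2 * (ζ X 2 / X 2),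
      ζ X 1 / X 2 - X 1 / X 2 * (ζ X 2 / X 2)) with hv
    set g : ℝ → ℝ := fun s => lft F (X + s • ζ X) with hg
    set g₁ : ℝ → ℝ := fun s => F (x + s • v) with hg₁
    have hpl : g =ᶠ[𝓝 0] fun t => g₁ (1 * t / (1 + e * t)) := line_plane F X (ζ X) hX2
    have hcd : ContDiff ℝ ∞ (fun t : ℝ => x + t • v) := by fun_prop
    have ho : IsOpen {s : ℝ | x + s • v ∈ U} := hL.isOpen.preimage hcd.continuous
    have hz : (0 : ℝ) ∈ {s : ℝ | x + s • v ∈ U} := by simpa using hxU
    have hsm : ContDiffOn ℝ ∞ g₁ {s : ℝ | x + s • v ∈ U} :=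
      hL.smooth.comp hcd.contDiffOn (fun t ht => ht)
    have hd : deriv g₁ 0 = fderiv ℝ F x v := by
      have h1 : HasDerivAt (fun t : ℝ => x + t • v) v 0 := by
        simpa using ((hasDerivAt_id (0 : ℝ)).smul_const v).const_add x
      have h2 : HasFDerivAt F (fderiv ℝ F x) (x + (0 : ℝ) • v) := by
        rw [zero_smul, add_zero]
        exact ((hL.smooth.contDiffAt (hL.isOpen.mem_nhds hxU)).differentiableAt
          (by simp)).hasFDerivAt
      exact (h2.comp_hasDerivAt (0 : ℝ) h1).deriv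
    have hg0 : deriv g 0 = 0 := by
      have := h1 X hX
      rwa [iteratedDeriv_one] at this
    have hFv : fderiv ℝ F x v = 0 := by
      have := (mob g₁ _ ho hz hsm 1 e g hpl).1
      rw [hg0, mul_one, hd] at this
      exact this.symm
    obtain ⟨c, hcev⟩ := hproj x ⟨hxS, hxU⟩ v hFv
    have hcg : ContDiffAt ℝ ∞ g 0 := c1.contDiffAt (o1.mem_nhds z1)
    apply evn g (c + 2 * e) hcg (h1 X hX) (h2 X hX) (h3 X hX)
    -- the invariance
    have hne1 : ∀ᶠ s in 𝓝 (0 : ℝ), 1 + e * s ≠ 0 := by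
      have : ContinuousAt (fun s : ℝ => 1 + e * s) 0 := by fun_prop
      exact this.eventually_ne (by simp)
    have hne2 : ∀ᶠ s in 𝓝 (0 : ℝ), 1 + (c + e) * s ≠ 0 := by
      have : ContinuousAt (fun s : ℝ => 1 + (c + e) * s) 0 := by fun_prop
      exact this.eventually_ne (by simp)
    have hne3 : ∀ᶠ s in 𝓝 (0 : ℝ), 1 + (c + 2 * e) * s ≠ 0 := by
      have : ContinuousAt (fun s : ℝ => 1 + (c + 2 * e) * s) 0 := by fun_prop
      exact this.eventually_ne (by simp)
    have ht1 : Tendsto (fun s : ℝ => 1 * s / (1 + e * s)) (𝓝 0) (𝓝 0) := by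
      have : ContinuousAt (fun s : ℝ => 1 * s / (1 + e * s)) 0 := by
        apply ContinuousAt.div
        · fun_prop
        · fun_prop
        · simp
      simpa [ContinuousAt] using this
    have ht2 : Tendsto (fun s : ℝ => -s / (1 + (c + 2 * e) * s)) (𝓝 0) (𝓝 0) := by
      have : ContinuousAt (fun s : ℝ => -s / (1 + (c + 2 * e) * s)) 0 := by
        apply ContinuousAt.div
        · fun_prop
        · fun_prop
        · simp
      simpa [ContinuousAt] using this
    filter_upwards [hpl, ht1.eventually hcev, ht2.eventually hpl, hne1, hne2, hne3] with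
      s k1 k2 k3 n1 n2 n3
    rw [k1, k3]
    show F (x + (1 * s / (1 + e * s)) • v) = g₁ _
    rw [k2]
    simp only [hg₁]
    congr 1
    rw [sub_eq_add_neg, ← neg_smul]
    congr 2
    exact mobius_alg c e s n1 n2 n3
  -- density
  have hden : ∀ k : ℕ, Odd k → ∀ X ∈ cone U,
      iteratedDeriv k (fun s : ℝ => lft F (X + s • ζ X)) 0 = 0 := by
    intro k hk X hX
    obtain ⟨hX2, hxU⟩ := hX
    have hX : X ∈ cone U := ⟨hX2, hxU⟩
    have hcont := (jet_smooth tk U F hc hs ζ hζ k).continuousOn.continuousAt (hc.mem_nhds hX)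
    obtain ⟨y, hyS, hyt⟩ := mem_closure_iff_seq_limit.mp (hS hxU)
    set Y : ℕ → E3 := fun n => ![X 2 * (y n).1, X 2 * (y n).2, X 2] with hY
    have hYt : Tendsto Y atTop (𝓝 X) := by
      rw [tendsto_pi_nhds]
      intro i
      have t1 : Tendsto (fun n => (y n).1) atTop (𝓝 (X 0 / X 2)) :=
        (continuous_fst.tendsto _).comp hyt
      have t2 : Tendsto (fun n => (y n).2) atTop (𝓝 (X 1 / X 2)) :=
        (continuous_snd.tendsto _).comp hyt
      fin_cases i
      · have := t1.const_mul (X 2)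
        rw [mul_div_cancel₀ _ hX2.ne'] at this
        exact this
      · have := t2.const_mul (X 2)
        rw [mul_div_cancel₀ _ hX2.ne'] at this
        exact this
      · exact tendsto_const_nhds
    have hyU : ∀ᶠ n in atTop, y n ∈ U := hyt.eventually_mem (hL.isOpen.mem_nhds hxU)
    have hzero : ∀ᶠ n in atTop,
        iteratedDeriv k (fun s : ℝ => lft F (Y n + s • ζ (Y n))) 0 = 0 := by
      filter_upwards [hyU] with n hn
      have e : (Y n 0 / Y n 2, Y n 1 / Y n 2) = y n := by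
        simp only [hY, Matrix.cons_val_zero, Matrix.cons_val_one, Matrix.cons_val]
        rw [mul_div_cancel_left₀ _ hX2.ne', mul_div_cancel_left₀ _ hX2.ne']
      apply hodd (Y n) _ _ k hk
      · exact ⟨by simpa [hY] using hX2, by rw [e]; exact hn⟩
      · rw [e]
        exact hyS n
    have hl := hcont.tendsto.comp hYt
    exact tendsto_nhds_unique (hl.congr' hzero) tendsto_const_nhds
  refine ⟨ζ, hζ, hh, h2, ?_⟩
  intro X hX k hk
  apply hden k _ X hX
  simp only [Set.mem_insert_iff, Set.mem_singleton_iff] at hk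
  rcases hk with rfl | rfl | rfl | rfl
  · exact ⟨0, rfl⟩
  · exact ⟨1, rfl⟩
  · exact ⟨2, rfl⟩
  · exact ⟨3, rfl⟩

end Pool.Agent.Run7.h913.CD
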