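import Pool.Agent.Run7.h913.CD.ZET
import Pool.Agent.Run7.h415.CD.LFT
import Pool.Agent.Run7.h415.CD.TK

/-! # Project CD: piece ZET, closed form (with the pieces LFT and TK of helper415) -/

set_option autoImplicit false

namespace Pool.Agent.Run7.h913.CD

open Pool.Agent.Run7.h71.CD

/-- **Piece ZET**, closed. -/
theorem t_ZET : S_ZET := ZET Run7.h415.CD.LFT Run7.h415.CD.TK

end Pool.Agent.Run7.h913.CD
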