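import Pool.Agent.Run7.h71.CD.Stm

/-! # Project CD: common lemmas for the pieces ZET and SETUP -/

set_option autoImplicit false

namespace Pool.Agent.Run7.h913.CD

open Set Filter Topology Pool.Agent.Run7.h71.CD
open scoped ContDiff

/-- derivatives of a reparametrisation by a projective map -/
theorem mob (g : ℝ → ℝ) (V : Set ℝ) (hV : IsOpen V) (h0 : (0 : ℝ) ∈ V)
    (hg : ContDiffOn ℝ ∞ g V) (a m : ℝ) (h : ℝ → ℝ)
    (hh : h =ᶠ[𝓝 0] fun s => g (a * s / (1 + m * s))) :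
    deriv h 0 = deriv g 0 * a ∧
    deriv (deriv h) 0 = deriv (deriv g) 0 * a ^ 2 - 2 * a * m * deriv g 0 ∧
    (deriv g 0 = 0 → deriv (deriv (deriv h)) 0 =
      a ^ 3 * deriv (deriv (deriv g)) 0 - 6 * a ^ 2 * m * deriv (deriv g) 0) := by
  have e1 : ContDiffOn ℝ ∞ (deriv g) V := hg.deriv_of_isOpen hV (by simp)
  have e2 : ContDiffOn ℝ ∞ (deriv (deriv g)) V := e1.deriv_of_isOpen hV (by simp)
  have hd (f : ℝ → ℝ) (hf : ContDiffOn ℝ ∞ f V) : ∀ t ∈ V, HasDerivAt f (deriv f t) t := by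
    intro t ht
    exact ((hf.contDiffAt (hV.mem_nhds ht)).differentiableAt (by simp)).hasDerivAt
  have hσc : ContinuousAt (fun s : ℝ => a * s / (1 + m * s)) 0 := by
    apply ContinuousAt.div
    · fun_prop
    · fun_prop
    · simp
  have hσ0 : ∀ᶠ s in 𝓝 (0 : ℝ), a * s / (1 + m * s) ∈ V :=
    hσc.eventually_mem (by simpa using hV.mem_nhds h0)
  have hne : ∀ᶠ s in 𝓝 (0 : ℝ), 1 + m * s ≠ 0 := by
    have : ContinuousAt (fun s : ℝ => 1 + m * s) 0 := by fun_prop
    exact this.eventually_ne (by simp)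
  have hσ : ∀ s : ℝ, 1 + m * s ≠ 0 →
      HasDerivAt (fun s : ℝ => a * s / (1 + m * s)) (a / (1 + m * s) ^ 2) s := by
    intro s hs
    have h1 : HasDerivAt (fun s : ℝ => a * s) a s := by
      simpa using (hasDerivAt_id s).const_mul a
    have h2 : HasDerivAt (fun s : ℝ => 1 + m * s) m s := by
      simpa using ((hasDerivAt_id s).const_mul m).const_add 1
    have h3 := h1.div h2 hs
    have e : a / (1 + m * s) ^ 2 = (a * (1 + m * s) - a * s * m) / (1 + m * s) ^ 2 := by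
      congr 1
      ring
    rw [e]
    exact h3
  have hσ' : ∀ s : ℝ, 1 + m * s ≠ 0 →
      HasDerivAt (fun s : ℝ => a / (1 + m * s) ^ 2) (-2 * a * m / (1 + m * s) ^ 3) s := by
    intro s hs
    have h2 : HasDerivAt (fun s : ℝ => 1 + m * s) m s := by
      simpa using ((hasDerivAt_id s).const_mul m).const_add 1
    have h3 := (hasDerivAt_const s a).div (h2.pow 2) (pow_ne_zero 2 hs)
    have e : -2 * a * m / (1 + m * s) ^ 3 =
        (0 * (1 + m * s) ^ 2 - a * (((2 : ℕ) : ℝ) * (1 + m * s) ^ (2 - 1) * m)) /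
          ((1 + m * s) ^ 2) ^ 2 := by
      simp only [Nat.cast_ofNat]
      field_simp
      ring
    rw [e]
    exact h3
  have hσ'' : ∀ s : ℝ, 1 + m * s ≠ 0 →
      HasDerivAt (fun s : ℝ => -2 * a * m / (1 + m * s) ^ 3) (6 * a * m ^ 2 / (1 + m * s) ^ 4) s := by
    intro s hs
    have h2 : HasDerivAt (fun s : ℝ => 1 + m * s) m s := by
      simpa using ((hasDerivAt_id s).const_mul m).const_add 1
    have h3 := (hasDerivAt_const s (-2 * a * m)).div (h2.pow 3) (pow_ne_zero 3 hs)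
    have e : 6 * a * m ^ 2 / (1 + m * s) ^ 4 =
        (0 * (1 + m * s) ^ 3 - (-2 * a * m) * (((3 : ℕ) : ℝ) * (1 + m * s) ^ (3 - 1) * m)) /
          ((1 + m * s) ^ 3) ^ 2 := by
      simp only [Nat.cast_ofNat]
      field_simp
      ring
    rw [e]
    exact h3
  have d1 : deriv h =ᶠ[𝓝 0] fun s => deriv g (a * s / (1 + m * s)) * (a / (1 + m * s) ^ 2) := by
    refine hh.deriv.trans ?_
    filter_upwards [hσ0, hne] with s hs hs'
    exact ((hd g hg _ hs).comp s (hσ s hs')).deriv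
  have d2 : deriv (deriv h) =ᶠ[𝓝 0] fun s =>
      deriv (deriv g) (a * s / (1 + m * s)) * (a / (1 + m * s) ^ 2) * (a / (1 + m * s) ^ 2) +
      deriv g (a * s / (1 + m * s)) * (-2 * a * m / (1 + m * s) ^ 3) := by
    refine d1.deriv.trans ?_
    filter_upwards [hσ0, hne] with s hs hs'
    exact (((hd _ e1 _ hs).comp s (hσ s hs')).mul (hσ' s hs')).deriv
  have hz : (1 : ℝ) + m * 0 ≠ 0 := by simp
  have hz' : a * 0 / (1 + m * 0) ∈ V := by simpa using h0
  have c1 := (hd _ e1 _ hz').comp 0 (hσ 0 hz)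
  have c2 := (hd _ e2 _ hz').comp 0 (hσ 0 hz)
  have d3 := d2.deriv_eq.trans
    (((c2.mul (hσ' 0 hz)).mul (hσ' 0 hz)).add (c1.mul (hσ'' 0 hz))).deriv
  refine ⟨?_, ?_, ?_⟩
  · rw [d1.eq_of_nhds]
    simp
  · rw [d2.eq_of_nhds]
    simp
    ring
  · intro hg0
    rw [d3]
    simp [hg0]
    ring

theorem lft_smul (F : ℝ × ℝ → ℝ) (X : E3) (r : ℝ) (hr : r ≠ 0) : lft F (r • X) = lft F X := by
  unfold lft
  simp only [Pi.smul_apply, smul_eq_mul]
  rw [mul_div_mul_left _ _ hr, mul_div_mul_left _ _ hr]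

theorem cone_smul (U : Set (ℝ × ℝ)) (X : E3) (hX : X ∈ cone U) (r : ℝ) (hr : 0 < r) :
    r • X ∈ cone U := by
  obtain ⟨h1, h2⟩ := hX
  refine ⟨by simpa using mul_pos hr h1, ?_⟩
  simp only [Pi.smul_apply, smul_eq_mul]
  rw [mul_div_mul_left _ _ hr.ne', mul_div_mul_left _ _ hr.ne']
  exact h2

/-- the restriction of the homogeneous function to a line -/
theorem line (U : Set (ℝ × ℝ)) (F : ℝ × ℝ → ℝ) (hc : IsOpen (cone U))
    (hs : ContDiffOn ℝ ∞ (lft F) (cone U)) (X : E3) (hX : X ∈ cone U) (V : E3) :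
    IsOpen {t : ℝ | X + t • V ∈ cone U} ∧ (0 : ℝ) ∈ {t : ℝ | X + t • V ∈ cone U} ∧
    ContDiffOn ℝ ∞ (fun t : ℝ => lft F (X + t • V)) {t : ℝ | X + t • V ∈ cone U} ∧
    deriv (fun t : ℝ => lft F (X + t • V)) 0 = fderiv ℝ (lft F) X V := by
  have hcd : ContDiff ℝ ∞ (fun t : ℝ => X + t • V) := by fun_prop
  refine ⟨hc.preimage hcd.continuous, by simpa using hX, ?_, ?_⟩
  · exact hs.comp hcd.contDiffOn (fun t ht => ht)
  · have h1 : HasDerivAt (fun t : ℝ => X + t • V) V 0 := by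
      simpa using ((hasDerivAt_id (0 : ℝ)).smul_const V).const_add X
    have h2 : HasFDerivAt (lft F) (fderiv ℝ (lft F) X) (X + (0 : ℝ) • V) := by
      rw [zero_smul, add_zero]
      exact ((hs.contDiffAt (hc.mem_nhds hX)).differentiableAt (by simp)).hasFDerivAt
    exact (h2.comp_hasDerivAt (0 : ℝ) h1).deriv

/-- A line in homogeneous coordinates and its image in the plane. -/
theorem line_plane (F : ℝ × ℝ → ℝ) (X V : E3) (hX : 0 < X 2) :
    (fun t : ℝ => lft F (X + t • V)) =ᶠ[𝓝 0] fun t => F ((X 0 / X 2, X 1 / X 2) +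
      (1 * t / (1 + V 2 / X 2 * t)) •
        ((V 0 / X 2 - X 0 / X 2 * (V 2 / X 2), V 1 / X 2 - X 1 / X 2 * (V 2 / X 2)) : ℝ × ℝ)) := by
  have hne : ∀ᶠ t in 𝓝 (0 : ℝ), 1 + V 2 / X 2 * t ≠ 0 := by
    have : ContinuousAt (fun t : ℝ => 1 + V 2 / X 2 * t) 0 := by fun_prop
    exact this.eventually_ne (by simp)
  filter_upwards [hne] with t ht
  have h2 : X 2 ≠ 0 := hX.ne'
  have h3 : X 2 + t * V 2 ≠ 0 := by
    intro h
    apply ht
    field_simp
    linarith
  unfold lft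
  congr 1
  simp only [Pi.add_apply, Pi.smul_apply, smul_eq_mul, Prod.smul_mk, Prod.mk_add_mk]
  have h4 : X 2 * (X 2 + t * V 2) ≠ 0 := mul_ne_zero h2 h3
  have h5 : 1 + V 2 / X 2 * t = (X 2 + t * V 2) / X 2 := by
    field_simp
  rw [h5]
  congr 1
  · field_simp
    ring
  · field_simp
    ring

/-- Adding a multiple of the point to the direction: reparametrisation of the line. -/
theorem line_repar (F : ℝ × ℝ → ℝ) (X Z : E3) (a k : ℝ) :
    (fun s : ℝ => lft F (X + s • (a • (Z + k • X)))) =ᶠ[𝓝 0] fun s =>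
      (fun t : ℝ => lft F (X + t • Z)) (a * s / (1 + k * a * s)) := by
  have hne : ∀ᶠ t in 𝓝 (0 : ℝ), 1 + k * a * t ≠ 0 := by
    have : ContinuousAt (fun t : ℝ => 1 + k * a * t) 0 := by fun_prop
    exact this.eventually_ne (by simp)
  filter_upwards [hne] with s hs
  show lft F (X + s • (a • (Z + k • X))) = lft F (X + (a * s / (1 + k * a * s)) • Z)
  rw [← lft_smul F (X + (a * s / (1 + k * a * s)) • Z) _ hs]
  congr 1
  simp only [smul_add, smul_smul]
  rw [mul_div_cancel₀ _ hs]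
  simp only [add_smul, one_smul]
  have e : s * (a * k) = k * a * s := by ring
  rw [e, mul_comm s a]
  abel

end Pool.Agent.Run7.h913.CD
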