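import Pool.Agent.Run7.h913.CD.Com

/-! # Project CD: piece ZET, the normalised vector field -/

set_option autoImplicit false

namespace Pool.Agent.Run7.h913.CD

open Set Filter Topology Pool.Agent.Run7.h71.CD
open scoped ContDiff

/-- partial derivatives of the homogeneous function -/
noncomputable def G (F : ℝ × ℝ → ℝ) (i : Fin 3) (X : E3) : ℝ :=
  fderiv ℝ (lft F) X (Pi.single i 1)

/-- the vector field `G × X` -/
noncomputable def Zf (F : ℝ × ℝ → ℝ) (X : E3) : E3 :=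
  ![G F 1 X * X 2 - G F 2 X * X 1, G F 2 X * X 0 - G F 0 X * X 2, G F 0 X * X 1 - G F 1 X * X 0]

theorem fderiv_eq (F : ℝ × ℝ → ℝ) (X V : E3) :
    fderiv ℝ (lft F) X V = G F 0 X * V 0 + G F 1 X * V 1 + G F 2 X * V 2 := by
  have h : V = V 0 • (Pi.single 0 1 : E3) + V 1 • (Pi.single 1 1 : E3) +
      V 2 • (Pi.single 2 1 : E3) := by
    funext i
    fin_cases i <;> simp [Pi.single_apply]
  conv_lhs => rw [h]
  simp only [map_add, map_smul, smul_eq_mul]
  unfold G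
  ring

theorem fderiv_Z (F : ℝ × ℝ → ℝ) (X : E3) : fderiv ℝ (lft F) X (Zf F X) = 0 := by
  rw [fderiv_eq]
  simp [Zf]
  ring

theorem G_smul (U : Set (ℝ × ℝ)) (F : ℝ × ℝ → ℝ) (hc : IsOpen (cone U))
    (hs : ContDiffOn ℝ ∞ (lft F) (cone U)) (X : E3) (hX : X ∈ cone U) (r : ℝ) (hr : 0 < r)
    (i : Fin 3) : G F i (r • X) = r⁻¹ * G F i X := by
  have hrX := cone_smul U X hX r hr
  unfold G
  obtain ⟨o1, z1, c1, e1⟩ := line U F hc hs X hX (Pi.single i 1)
  obtain ⟨-, -, -, e2⟩ := line U F hc hs (r • X) hrX (Pi.single i 1)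
  have hh : (fun t : ℝ => lft F (r • X + t • (Pi.single i 1 : E3))) =ᶠ[𝓝 0] fun s =>
      (fun t : ℝ => lft F (X + t • (Pi.single i 1 : E3))) (r⁻¹ * s / (1 + 0 * s)) := by
    refine Eventually.of_forall fun s => ?_
    show lft F (r • X + s • (Pi.single i 1 : E3)) =
      lft F (X + (r⁻¹ * s / (1 + 0 * s)) • (Pi.single i 1 : E3))
    rw [← lft_smul F (X + (r⁻¹ * s / (1 + 0 * s)) • (Pi.single i 1 : E3)) r hr.ne']
    congr 1
    rw [smul_add, smul_smul]
    congr 2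
    field_simp
    ring
  have := (mob _ _ o1 z1 c1 r⁻¹ 0 _ hh).1
  rw [← e1, ← e2, this]
  ring

theorem Z_smul (U : Set (ℝ × ℝ)) (F : ℝ × ℝ → ℝ) (hc : IsOpen (cone U))
    (hs : ContDiffOn ℝ ∞ (lft F) (cone U)) (X : E3) (hX : X ∈ cone U) (r : ℝ) (hr : 0 < r) :
    Zf F (r • X) = Zf F X := by
  unfold Zf
  simp only [G_smul U F hc hs X hX r hr, Pi.smul_apply, smul_eq_mul]
  have hr' : r ≠ 0 := hr.ne'
  congr 1
  · field_simp
  congr 1
  · field_simp
  congr 1
  · field_simp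

theorem G_smooth (U : Set (ℝ × ℝ)) (F : ℝ × ℝ → ℝ) (hc : IsOpen (cone U))
    (hs : ContDiffOn ℝ ∞ (lft F) (cone U)) (i : Fin 3) : ContDiffOn ℝ ∞ (G F i) (cone U) := by
  have h1 : ContDiffOn ℝ ∞ (fderiv ℝ (lft F)) (cone U) := hs.fderiv_of_isOpen hc (by simp)
  exact h1.clm_apply contDiffOn_const

theorem Z_smooth (U : Set (ℝ × ℝ)) (F : ℝ × ℝ → ℝ) (hc : IsOpen (cone U))
    (hs : ContDiffOn ℝ ∞ (lft F) (cone U)) : ContDiffOn ℝ ∞ (Zf F) (cone U) := by
  have hx : ∀ i : Fin 3, ContDiffOn ℝ ∞ (fun X : E3 => X i) (cone U) := fun i =>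
    (contDiff_apply ℝ ℝ i).contDiffOn
  have hG := G_smooth U F hc hs
  rw [contDiffOn_pi]
  intro i
  fin_cases i
  · exact ((hG 1).mul (hx 2)).sub ((hG 2).mul (hx 1))
  · exact ((hG 2).mul (hx 0)).sub ((hG 0).mul (hx 2))
  · exact ((hG 0).mul (hx 1)).sub ((hG 1).mul (hx 0))

/-- the second derivative along `Z` is positive -/
theorem kappa_pos (U : Set (ℝ × ℝ)) (F : ℝ × ℝ → ℝ) (hL : Leaves U F) (hc : IsOpen (cone U))
    (hs : ContDiffOn ℝ ∞ (lft F) (cone U)) (he : ∀ X ∈ cone U, fderiv ℝ (lft F) X X = 0)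
    (X : E3) (hX : X ∈ cone U) :
    0 < deriv (deriv (fun t : ℝ => lft F (X + t • Zf F X))) 0 := by
  obtain ⟨hX2, hxU⟩ := hX
  have hX : X ∈ cone U := ⟨hX2, hxU⟩
  set x : ℝ × ℝ := (X 0 / X 2, X 1 / X 2) with hx
  have hplane : ∀ v : ℝ × ℝ, IsOpen {s : ℝ | x + s • v ∈ U} ∧ (0 : ℝ) ∈ {s : ℝ | x + s • v ∈ U} ∧
      ContDiffOn ℝ ∞ (fun s : ℝ => F (x + s • v)) {s : ℝ | x + s • v ∈ U} ∧
      deriv (fun s : ℝ => F (x + s • v)) 0 = fderiv ℝ F x v := by
    intro v
    have hcd : ContDiff ℝ ∞ (fun t : ℝ => x + t • v) := by fun_prop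
    refine ⟨hL.isOpen.preimage hcd.continuous, by simpa using hxU, ?_, ?_⟩
    · exact hL.smooth.comp hcd.contDiffOn (fun t ht => ht)
    · have h1 : HasDerivAt (fun t : ℝ => x + t • v) v 0 := by
        simpa using ((hasDerivAt_id (0 : ℝ)).smul_const v).const_add x
      have h2 : HasFDerivAt F (fderiv ℝ F x) (x + (0 : ℝ) • v) := by
        rw [zero_smul, add_zero]
        exact ((hL.smooth.contDiffAt (hL.isOpen.mem_nhds hxU)).differentiableAt
          (by simp)).hasFDerivAt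
      exact (h2.comp_hasDerivAt (0 : ℝ) h1).deriv
  have hcomp : ∀ V : E3,
      deriv (fun t : ℝ => lft F (X + t • V)) 0 = fderiv ℝ F x
        (V 0 / X 2 - X 0 / X 2 * (V 2 / X 2), V 1 / X 2 - X 1 / X 2 * (V 2 / X 2)) ∧
      (deriv (fun t : ℝ => lft F (X + t • V)) 0 = 0 →
        deriv (deriv (fun t : ℝ => lft F (X + t • V))) 0 = deriv (deriv (fun s : ℝ =>
          F (x + s • ((V 0 / X 2 - X 0 / X 2 * (V 2 / X 2),
            V 1 / X 2 - X 1 / X 2 * (V 2 / X 2)) : ℝ × ℝ)))) 0) := by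
    intro V
    obtain ⟨o, z, c, e⟩ := hplane (V 0 / X 2 - X 0 / X 2 * (V 2 / X 2),
      V 1 / X 2 - X 1 / X 2 * (V 2 / X 2))
    have hm := mob _ _ o z c 1 (V 2 / X 2) _ (line_plane F X V hX2)
    refine ⟨?_, ?_⟩
    · rw [hm.1, ← e, mul_one]
    · intro h0
      have h1 := hm.1
      rw [h0, mul_one] at h1
      rw [hm.2.1, ← h1]
      ring
  -- the differential of `lft F` does not vanish
  have hG : ¬ (G F 0 X = 0 ∧ G F 1 X = 0 ∧ G F 2 X = 0) := by
    rintro ⟨g0, g1, g2⟩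
    apply hL.regular x hxU
    ext v
    · have h := (hcomp ![X 2, 0, 0]).1
      rw [(line U F hc hs X hX _).2.2.2, fderiv_eq, g0, g1, g2] at h
      simp only [zero_mul, add_zero, Matrix.cons_val_zero, Matrix.cons_val_one, Matrix.cons_val,
        zero_div, mul_zero, sub_zero, div_self hX2.ne'] at h
      simpa using h.symm
    · have h := (hcomp ![0, X 2, 0]).1
      rw [(line U F hc hs X hX _).2.2.2, fderiv_eq, g0, g1, g2] at h
      simp only [zero_mul, add_zero, Matrix.cons_val_zero, Matrix.cons_val_one, Matrix.cons_val,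
        zero_div, mul_zero, sub_zero, div_self hX2.ne'] at h
      simpa using h.symm
  have hd0 : deriv (fun t : ℝ => lft F (X + t • Zf F X)) 0 = 0 := by
    rw [(line U F hc hs X hX _).2.2.2, fderiv_Z]
  rw [(hcomp (Zf F X)).2 hd0]
  apply hL.curved x hxU
  · intro h0
    rw [Prod.mk_eq_zero] at h0
    obtain ⟨h1, h2⟩ := h0
    have hX2' : X 2 ≠ 0 := hX2.ne'
    have k1 : Zf F X 0 * X 2 = X 0 * Zf F X 2 := by
      field_simp at h1
      linarith
    have k2 : Zf F X 1 * X 2 = X 1 * Zf F X 2 := by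
      field_simp at h2
      linarith
    have horth : X 0 * Zf F X 0 + X 1 * Zf F X 1 + X 2 * Zf F X 2 = 0 := by
      simp [Zf]
      ring
    have hz2 : Zf F X 2 = 0 := by
      have : (X 0 ^ 2 + X 1 ^ 2 + X 2 ^ 2) * Zf F X 2 = 0 := by
        linear_combination X 2 * horth - X 0 * k1 - X 1 * k2
      rcases mul_eq_zero.mp this with h | h
      · nlinarith [sq_nonneg (X 0), sq_nonneg (X 1), mul_pos hX2 hX2]
      · exact h
    have hz0 : Zf F X 0 = 0 := by
      rw [hz2, mul_zero] at k1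
      exact (mul_eq_zero.mp k1).resolve_right hX2'
    have hz1 : Zf F X 1 = 0 := by
      rw [hz2, mul_zero] at k2
      exact (mul_eq_zero.mp k2).resolve_right hX2'
    have eul := he X hX
    rw [fderiv_eq] at eul
    simp only [Zf, Matrix.cons_val_zero, Matrix.cons_val_one, Matrix.cons_val] at hz0 hz1 hz2
    have hsum : (G F 0 X ^ 2 + G F 1 X ^ 2 + G F 2 X ^ 2) * (X 0 ^ 2 + X 1 ^ 2 + X 2 ^ 2) = 0 := by
      have : (G F 0 X ^ 2 + G F 1 X ^ 2 + G F 2 X ^ 2) * (X 0 ^ 2 + X 1 ^ 2 + X 2 ^ 2) =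
        (G F 0 X * X 0 + G F 1 X * X 1 + G F 2 X * X 2) ^ 2 +
        (G F 1 X * X 2 - G F 2 X * X 1) ^ 2 + (G F 2 X * X 0 - G F 0 X * X 2) ^ 2 +
        (G F 0 X * X 1 - G F 1 X * X 0) ^ 2 := by ring
      rw [this, eul, hz0, hz1, hz2]
      ring
    have hXs : X 0 ^ 2 + X 1 ^ 2 + X 2 ^ 2 ≠ 0 := by
      have := mul_pos hX2 hX2
      nlinarith [sq_nonneg (X 0), sq_nonneg (X 1)]
    have hg := (mul_eq_zero.mp hsum).resolve_right hXs
    apply hG
    refine ⟨?_, ?_, ?_⟩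
    · have : G F 0 X ^ 2 = 0 := by
        nlinarith [sq_nonneg (G F 0 X), sq_nonneg (G F 1 X), sq_nonneg (G F 2 X)]
      exact pow_eq_zero_iff (two_ne_zero) |>.mp this
    · have : G F 1 X ^ 2 = 0 := by
        nlinarith [sq_nonneg (G F 0 X), sq_nonneg (G F 1 X), sq_nonneg (G F 2 X)]
      exact pow_eq_zero_iff (two_ne_zero) |>.mp this
    · have : G F 2 X ^ 2 = 0 := by
        nlinarith [sq_nonneg (G F 0 X), sq_nonneg (G F 1 X), sq_nonneg (G F 2 X)]
      exact pow_eq_zero_iff (two_ne_zero) |>.mp this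
  · rw [← (hcomp (Zf F X)).1, hd0]

/-- functions of the form `X ↦ k-th derivative of lft F (X + s ζ(X))` are smooth -/
theorem jet_smooth (tk : S_TK) (U : Set (ℝ × ℝ)) (F : ℝ × ℝ → ℝ) (hc : IsOpen (cone U))
    (hs : ContDiffOn ℝ ∞ (lft F) (cone U)) (ζ : E3 → E3) (hζ : ContDiffOn ℝ ∞ ζ (cone U))
    (k : ℕ) : ContDiffOn ℝ ∞ (fun X => iteratedDeriv k (fun s : ℝ => lft F (X + s • ζ X)) 0)
      (cone U) := by
  set m : E3 × ℝ → E3 := fun z => z.1 + z.2 • ζ z.1 with hm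
  have h1 : ContDiffOn ℝ ∞ m ((cone U) ×ˢ univ) := by
    apply ContDiffOn.add contDiffOn_fst
    apply ContDiffOn.smul contDiffOn_snd
    exact hζ.comp contDiffOn_fst (fun z hz => hz.1)
  have hW : IsOpen (((cone U) ×ˢ (univ : Set ℝ)) ∩ m ⁻¹' (cone U)) :=
    h1.continuousOn.isOpen_inter_preimage (hc.prod isOpen_univ) hc
  have h2 : ContDiffOn ℝ ∞ (fun z => lft F (m z)) (((cone U) ×ˢ (univ : Set ℝ)) ∩ m ⁻¹' (cone U)) :=
    hs.comp (h1.mono inter_subset_left) (fun z hz => hz.2)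
  have := (tk (cone U) _ (fun z => lft F (m z)) hc hW (fun X hX => ⟨⟨hX, mem_univ _⟩, by
    simpa [hm] using hX⟩) h2 k).1
  exact this

/-- **Piece ZET.** -/
theorem ZET : S_LFT → S_TK → S_ZET := by
  intro lf tk U F hL
  obtain ⟨hc, hs, -, -, he, -, -⟩ := lf U F hL.isOpen hL.smooth
  set κ : E3 → ℝ := fun X => iteratedDeriv 2 (fun s : ℝ => lft F (X + s • Zf F X)) 0 with hκ
  set τ : E3 → ℝ := fun X => iteratedDeriv 3 (fun s : ℝ => lft F (X + s • Zf F X)) 0 with hτ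
  have i2 (f : ℝ → ℝ) : iteratedDeriv 2 f = deriv (deriv f) := by
    rw [iteratedDeriv_succ, iteratedDeriv_one]
  have i3 (f : ℝ → ℝ) : iteratedDeriv 3 f = deriv (deriv (deriv f)) := by
    rw [iteratedDeriv_succ, i2]
  have hZ := Z_smooth U F hc hs
  have κs : ContDiffOn ℝ ∞ κ (cone U) := jet_smooth tk U F hc hs _ hZ 2
  have τs : ContDiffOn ℝ ∞ τ (cone U) := jet_smooth tk U F hc hs _ hZ 3
  have κpos : ∀ X ∈ cone U, 0 < κ X := by
    intro X hX
    rw [hκ]
    simp only [i2]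
    exact kappa_pos U F hL hc hs he X hX
  have hd0 : ∀ X ∈ cone U, deriv (fun t : ℝ => lft F (X + t • Zf F X)) 0 = 0 := by
    intro X hX
    rw [(line U F hc hs X hX _).2.2.2, fderiv_Z]
  have hhom : ∀ X ∈ cone U, ∀ r : ℝ, 0 < r → κ (r • X) = κ X / r ^ 2 ∧ τ (r • X) = τ X / r ^ 3 := by
    intro X hX r hr
    obtain ⟨o1, z1, c1, -⟩ := line U F hc hs X hX (Zf F X)
    have hh : (fun t : ℝ => lft F (r • X + t • Zf F (r • X))) =ᶠ[𝓝 0] fun s =>
        (fun t : ℝ => lft F (X + t • Zf F X)) (r⁻¹ * s / (1 + 0 * s)) := by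
      refine Eventually.of_forall fun s => ?_
      show lft F (r • X + s • Zf F (r • X)) = lft F (X + (r⁻¹ * s / (1 + 0 * s)) • Zf F X)
      rw [Z_smul U F hc hs X hX r hr,
        ← lft_smul F (X + (r⁻¹ * s / (1 + 0 * s)) • Zf F X) r hr.ne']
      congr 1
      rw [smul_add, smul_smul]
      congr 2
      field_simp
      ring
    have hm := mob _ _ o1 z1 c1 r⁻¹ 0 _ hh
    constructor
    · simp only [hκ, i2]
      rw [hm.2.1, hd0 X hX]
      field_simp
      ring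
    · simp only [hτ, i3]
      rw [hm.2.2 (hd0 X hX)]
      field_simp
      ring
  set lam : E3 → ℝ := fun X => Real.sqrt (2 / κ X) with hlam
  set kk : E3 → ℝ := fun X => τ X / (6 * κ X) with hkk
  have lams : ContDiffOn ℝ ∞ lam (cone U) := by
    apply ContDiffOn.sqrt
    · exact contDiffOn_const.div κs (fun X hX => (κpos X hX).ne')
    · intro X hX
      have := κpos X hX
      positivity
  have kks : ContDiffOn ℝ ∞ kk (cone U) := by
    apply τs.div (contDiffOn_const.mul κs)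
    intro X hX
    have := κpos X hX
    positivity
  have lam2 : ∀ X ∈ cone U, lam X ^ 2 = 2 / κ X := by
    intro X hX
    have := κpos X hX
    exact Real.sq_sqrt (by positivity)
  refine ⟨fun X => lam X • (Zf F X + kk X • X), ?_, ?_, ?_, ?_, ?_⟩
  · exact lams.smul (hZ.add (kks.smul contDiffOn_id))
  · intro X hX r hr
    obtain ⟨h1, h2⟩ := hhom X hX r hr
    have hκX := κpos X hX
    have e1 : lam (r • X) = r * lam X := by
      simp only [hlam]
      rw [h1]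
      have : 2 / (κ X / r ^ 2) = r ^ 2 * (2 / κ X) := by
        field_simp
      rw [this, Real.sqrt_mul (by positivity), Real.sqrt_sq hr.le]
    have e2 : kk (r • X) * r = kk X := by
      simp only [hkk]
      rw [h1, h2]
      field_simp
    show lam (r • X) • (Zf F (r • X) + kk (r • X) • r • X) = r • lam X • (Zf F X + kk X • X)
    rw [e1, Z_smul U F hc hs X hX r hr, smul_smul (kk (r • X)), e2, smul_smul]
  · intro X hX
    obtain ⟨o1, z1, c1, -⟩ := line U F hc hs X hX (Zf F X)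
    have hm := mob _ _ o1 z1 c1 (lam X) (kk X * lam X) _ (line_repar F X (Zf F X) (lam X) (kk X))
    show iteratedDeriv 2 (fun s : ℝ => lft F (X + s • (lam X • (Zf F X + kk X • X)))) 0 = 2
    rw [i2, hm.2.1, hd0 X hX, lam2 X hX, mul_zero, sub_zero]
    have : deriv (deriv (fun t : ℝ => lft F (X + t • Zf F X))) 0 = κ X := by
      simp only [hκ, i2]
    rw [this]
    have := (κpos X hX).ne'
    field_simp
  · intro X hX
    obtain ⟨o1, z1, c1, -⟩ := line U F hc hs X hX (Zf F X)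
    have hm := mob _ _ o1 z1 c1 (lam X) (kk X * lam X) _ (line_repar F X (Zf F X) (lam X) (kk X))
    show iteratedDeriv 1 (fun s : ℝ => lft F (X + s • (lam X • (Zf F X + kk X • X)))) 0 = 0
    rw [iteratedDeriv_one, hm.1, hd0 X hX, zero_mul]
  · intro X hX
    obtain ⟨o1, z1, c1, -⟩ := line U F hc hs X hX (Zf F X)
    have hm := mob _ _ o1 z1 c1 (lam X) (kk X * lam X) _ (line_repar F X (Zf F X) (lam X) (kk X))
    show iteratedDeriv 3 (fun s : ℝ => lft F (X + s • (lam X • (Zf F X + kk X • X)))) 0 = 0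
    rw [i3, hm.2.2 (hd0 X hX)]
    have h2 : deriv (deriv (fun t : ℝ => lft F (X + t • Zf F X))) 0 = κ X := by
      simp only [hκ, i2]
    have h3 : deriv (deriv (deriv (fun t : ℝ => lft F (X + t • Zf F X)))) 0 = τ X := by
      simp only [hτ, i3]
    rw [h2, h3]
    have := (κpos X hX).ne'
    simp only [hkk]
    field_simp
    ring

end Pool.Agent.Run7.h913.CD
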